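import Pool.Agent.W792.WA.Stm3
import Pool.Agent.W372.WA.Netx

/-!
# Project WA: part NETX2
-/

set_option autoImplicit false

namespace Pool.Agent.W125.WA.Netx2

open MeasureTheory Pool.Agent.W792.LL Pool.Agent.W792.WA Pool.Agent.W372.WA

noncomputable section

theorem norm_sub_I (x : ℝ) : ‖(x : ℂ) - Complex.I‖ = √(1 + x ^ 2) := by
  rw [Complex.norm_def, Complex.normSq_apply]
  congr 1
  simp
  ring

theorem cay_arctan (x y : ℝ) : ‖cay x - cay y‖ ≤ 2 * |Real.arctan x - Real.arctan y| := by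
  have hx := ne_I x
  have hy := ne_I y
  have e : cay x - cay y = (2 * Complex.I * ((y : ℂ) - x)) /
      (((x : ℂ) - Complex.I) * ((y : ℂ) - Complex.I)) := by
    unfold cay
    field_simp
    ring
  have h3 : ‖(y : ℂ) - x‖ = |x - y| := by
    rw [← Complex.ofReal_sub, Complex.norm_real, Real.norm_eq_abs, abs_sub_comm]
  rw [e, norm_div, norm_mul, norm_mul, norm_mul, Complex.norm_I, Complex.norm_ofNat, h3,
    norm_sub_I, norm_sub_I]
  have hs : Real.sin (Real.arctan x - Real.arctan y) = (x - y) / (√(1 + x ^ 2) * √(1 + y ^ 2)) := by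
    rw [Real.sin_sub, Real.sin_arctan, Real.cos_arctan, Real.sin_arctan, Real.cos_arctan]
    have h1 : √(1 + x ^ 2) ≠ 0 := by positivity
    have h2 : √(1 + y ^ 2) ≠ 0 := by positivity
    field_simp
  have h1 : 2 * 1 * |x - y| / (√(1 + x ^ 2) * √(1 + y ^ 2)) =
      2 * |Real.sin (Real.arctan x - Real.arctan y)| := by
    rw [hs, abs_div, abs_of_pos (show 0 < √(1 + x ^ 2) * √(1 + y ^ 2) by positivity)]
    ring
  rw [h1]
  have h2 : |Real.sin (Real.arctan x - Real.arctan y)| ≤ |Real.arctan x - Real.arctan y| :=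
    Real.abs_sin_le_abs
  linarith

theorem key' {δ : ℝ} (hδ : 0 < δ) {N : ℕ} (hN : 1 ≤ N) {X : MX} (hX : X ∈ Mo δ) :
    ∃ g, ∀ (c : ℝ → ℝ) (e : ℝ), (∀ u, 0 ≤ c u) →
      (∀ u ∈ Set.Ioo (0 : ℝ) 1, c u ≤ 2 * (2 * |X.1 u - (YY δ N g).1 u|) ^ 2 + e) →
      ∫ u in Set.Ioc (0 : ℝ) 1, c u ≤ 80 * δ ^ 2 / N + e := by
  obtain ⟨hm, hb⟩ := hX
  have hNR : (1 : ℝ) ≤ (N : ℝ) := by exact_mod_cast hN
  have hN0 : (0 : ℝ) < (N : ℝ) := by linarith
  have hb1 : ∀ u, -δ ≤ X.1 u := fun u => (abs_le.1 (hb u)).1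
  have hb2 : ∀ u, X.1 u ≤ δ := fun u => (abs_le.1 (hb u)).2
  have ht0 : ∀ u, 0 ≤ (X.1 u + δ) * N / δ := fun u => by
    have := hb1 u
    have : 0 ≤ X.1 u + δ := by linarith
    positivity
  have ht1 : ∀ u, (X.1 u + δ) * N / δ ≤ 2 * N := fun u => by
    rw [div_le_iff₀ hδ]
    have := hb2 u
    nlinarith
  let g : Fin (N + 1) → Fin (2 * N + 1) := fun j =>
    ⟨⌊(X.1 ((j : ℕ) / (N : ℝ)) + δ) * N / δ⌋₊, by
      have h := Nat.floor_le_floor (ht1 ((j : ℕ) / (N : ℝ)))
      have e : ⌊(2 * N : ℝ)⌋₊ = 2 * N := by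
        have : ((2 * N : ℕ) : ℝ) = 2 * N := by push_cast; ring
        rw [← this, Nat.floor_natCast]
      omega⟩
  refine ⟨g, ?_⟩
  intro c e0 hc0 hce
  have hpt : ∀ u ∈ Set.Ioo (0 : ℝ) 1, c u ≤
      2 * (16 * δ * (X.1 u - X.1 (u - 1 / N)) + 8 * δ ^ 2 / N) + e0 := by
    intro u hu
    have hu0 : 0 ≤ (N : ℝ) * u := mul_nonneg hN0.le hu.1.le
    obtain ⟨j, hj⟩ : ∃ j : ℕ, j = ⌊(N : ℝ) * u⌋₊ := ⟨_, rfl⟩
    have hj1 : (j : ℝ) ≤ N * u := by rw [hj]; exact Nat.floor_le hu0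
    have hj2 : (N : ℝ) * u < j + 1 := by rw [hj]; exact Nat.lt_floor_add_one _
    have hjN : j ≤ N := by
      have : (j : ℝ) ≤ N := hj1.trans (by nlinarith [hu.2])
      exact_mod_cast this
    have hju : (j : ℝ) / N ≤ u := by
      rw [div_le_iff₀ hN0]
      linarith
    have huj : u - 1 / N ≤ (j : ℝ) / N := by
      rw [sub_le_iff_le_add, ← add_div, le_div_iff₀ hN0]
      linarith
    have hY : (YY δ N g).1 u = -δ + δ / N * (⌊(X.1 ((j : ℕ) / (N : ℝ)) + δ) * N / δ⌋₊ : ℝ) := by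
      have e : (⟨min ⌊(N : ℝ) * u⌋₊ N, by omega⟩ : Fin (N + 1)) = ⟨j, by omega⟩ := by
        apply Fin.ext
        show min ⌊(N : ℝ) * u⌋₊ N = j
        rw [← hj]
        exact min_eq_left hjN
      show -δ + δ / N * ((g ⟨min ⌊(N : ℝ) * u⌋₊ N, by omega⟩ : ℕ) : ℝ) = _
      rw [e]
    obtain ⟨t, ht⟩ : ∃ t : ℝ, t = (X.1 ((j : ℕ) / (N : ℝ)) + δ) * N / δ := ⟨_, rfl⟩
    rw [← ht] at hY
    have htt0 : 0 ≤ t := by rw [ht]; exact ht0 _
    have hf1 : (⌊t⌋₊ : ℝ) ≤ t := Nat.floor_le htt0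
    have hf2 : t < ⌊t⌋₊ + 1 := Nat.lt_floor_add_one t
    have hXt : X.1 ((j : ℕ) / (N : ℝ)) = -δ + δ / N * t := by
      rw [ht]
      field_simp
      ring
    have hdN : 0 < δ / N := div_pos hδ hN0
    have hA : X.1 ((j : ℕ) / (N : ℝ)) ≤ X.1 u := hm hju
    have hB : X.1 (u - 1 / N) ≤ X.1 ((j : ℕ) / (N : ℝ)) := hm huj
    have hC : |(YY δ N g).1 u - X.1 ((j : ℕ) / (N : ℝ))| ≤ δ / N := by
      rw [hY, hXt, abs_le]
      constructor <;> nlinarith
    obtain ⟨p, hp⟩ : ∃ p : ℝ, p = X.1 u - X.1 ((j : ℕ) / (N : ℝ)) := ⟨_, rfl⟩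
    have hp0 : 0 ≤ p := by rw [hp]; linarith
    have hp1 : p ≤ X.1 u - X.1 (u - 1 / N) := by rw [hp]; linarith
    have hp2 : p ≤ 2 * δ := by
      rw [hp]
      have := hb1 ((j : ℕ) / (N : ℝ))
      have := hb2 u
      linarith
    have hD : |X.1 u - (YY δ N g).1 u| ≤ p + δ / N := by
      have h1 : |X.1 u - X.1 ((j : ℕ) / (N : ℝ))| = p := by
        rw [hp, abs_of_nonneg]
        linarith
      calc |X.1 u - (YY δ N g).1 u| ≤ |X.1 u - X.1 ((j : ℕ) / (N : ℝ))| +
            |X.1 ((j : ℕ) / (N : ℝ)) - (YY δ N g).1 u| := abs_sub_le _ _ _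
        _ ≤ p + δ / N := by
            rw [h1, abs_sub_comm (X.1 ((j : ℕ) / (N : ℝ)))]
            linarith
    have hF : (2 * |X.1 u - (YY δ N g).1 u|) ^ 2 ≤ (2 * (p + δ / N)) ^ 2 :=
      pow_le_pow_left₀ (by positivity) (by linarith) 2
    refine (hce u hu).trans ?_
    have hG : (δ / N) ^ 2 ≤ δ ^ 2 / N := by
      rw [div_pow]
      apply div_le_div_of_nonneg_left (by positivity) hN0
      nlinarith
    have hH : p ^ 2 ≤ 2 * δ * (X.1 u - X.1 (u - 1 / N)) := by
      have h1 : p * p ≤ (2 * δ) * (X.1 u - X.1 (u - 1 / N)) :=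
        mul_le_mul hp2 hp1 hp0 (by linarith)
      nlinarith
    have e8 : 8 * δ ^ 2 / N = 8 * (δ ^ 2 / N) := by ring
    rw [e8]
    nlinarith [sq_nonneg (p - δ / N)]
  -- integration
  have hsh : Monotone fun u : ℝ => X.1 (u - 1 / N) := fun a b hab => hm (by linarith)
  have hI1 : IntervalIntegrable X.1 volume 0 1 := hm.intervalIntegrable
  have hI2 : IntervalIntegrable (fun u : ℝ => X.1 (u - 1 / N)) volume 0 1 := hsh.intervalIntegrable
  have hI0 : IntervalIntegrable (fun u : ℝ => 16 * δ * (X.1 u - X.1 (u - 1 / N)) +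
      8 * δ ^ 2 / N) volume 0 1 := ((hI1.sub hI2).const_mul _).add intervalIntegrable_const
  have hI : IntervalIntegrable (fun u : ℝ => 2 * (16 * δ * (X.1 u - X.1 (u - 1 / N)) +
      8 * δ ^ 2 / N) + e0) volume 0 1 := (hI0.const_mul _).add intervalIntegrable_const
  have hval : ∫ u in (0 : ℝ)..1, (16 * δ * (X.1 u - X.1 (u - 1 / N)) + 8 * δ ^ 2 / N) ≤
      40 * δ ^ 2 / N := by
    rw [intervalIntegral.integral_add ((hI1.sub hI2).const_mul _) intervalIntegrable_const,
      intervalIntegral.integral_const_mul, intervalIntegral.integral_sub hI1 hI2,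
      intervalIntegral.integral_const, intervalIntegral.integral_comp_sub_right (fun u => X.1 u)]
    have e1 := intervalIntegral.integral_interval_sub_interval_comm
      (f := X.1) (μ := volume) (a := 0) (b := 1) (c := 0 - 1 / N) (d := 1 - 1 / N)
      hm.intervalIntegrable hm.intervalIntegrable hm.intervalIntegrable
    rw [e1]
    have b1 : |∫ x in (0 : ℝ)..(0 - 1 / N), X.1 x| ≤ δ * |(0 - 1 / N : ℝ) - 0| := by
      rw [← Real.norm_eq_abs]
      exact intervalIntegral.norm_integral_le_of_norm_le_const fun x _ => hb x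
    have b2 : |∫ x in (1 : ℝ)..(1 - 1 / N), X.1 x| ≤ δ * |(1 - 1 / N : ℝ) - 1| := by
      rw [← Real.norm_eq_abs]
      exact intervalIntegral.norm_integral_le_of_norm_le_const fun x _ => hb x
    have c1 : |(0 - 1 / N : ℝ) - 0| = 1 / N := by
      rw [show (0 - 1 / N : ℝ) - 0 = -(1 / N) by ring, abs_neg, abs_of_pos (by positivity)]
    have c2 : |(1 - 1 / N : ℝ) - 1| = 1 / N := by
      rw [show (1 - 1 / N : ℝ) - 1 = -(1 / N) by ring, abs_neg, abs_of_pos (by positivity)]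
    rw [c1] at b1
    rw [c2] at b2
    have d1 := (abs_le.1 b1).2
    have d2 := (abs_le.1 b2).1
    have d3 : (∫ x in (0 : ℝ)..(0 - 1 / N), X.1 x) - ∫ x in (1 : ℝ)..(1 - 1 / N), X.1 x ≤
        2 * δ * (1 / N) := by linarith
    have d4 : 16 * δ * ((∫ x in (0 : ℝ)..(0 - 1 / N), X.1 x) -
        ∫ x in (1 : ℝ)..(1 - 1 / N), X.1 x) ≤ 16 * δ * (2 * δ * (1 / N)) :=
      mul_le_mul_of_nonneg_left d3 (by positivity)
    have d5 : 16 * δ * (2 * δ * (1 / N)) + ((1 : ℝ) - 0) • (8 * δ ^ 2 / N) = 40 * δ ^ 2 / N := by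
      rw [smul_eq_mul]
      ring
    linarith
  have hval2 : ∫ u in (0 : ℝ)..1, (2 * (16 * δ * (X.1 u - X.1 (u - 1 / N)) +
      8 * δ ^ 2 / N) + e0) ≤ 80 * δ ^ 2 / N + e0 := by
    rw [intervalIntegral.integral_add (hI0.const_mul _) intervalIntegrable_const,
      intervalIntegral.integral_const_mul, intervalIntegral.integral_const]
    have : 80 * δ ^ 2 / N = 2 * (40 * δ ^ 2 / N) := by ring
    rw [this, sub_zero, one_smul]
    linarith
  refine le_trans ?_ hval2
  rw [intervalIntegral.integral_of_le zero_le_one, integral_Ioc_eq_integral_Ioo,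
    integral_Ioc_eq_integral_Ioo]
  refine integral_mono_of_nonneg (Filter.Eventually.of_forall fun u => hc0 u)
    (hI.1.mono_set Set.Ioo_subset_Ioc_self) ?_
  exact (ae_restrict_iff' measurableSet_Ioo).2 (Filter.Eventually.of_forall hpt)

/-- clamping -/
def cl (b y : ℝ) : ℝ := max (-b) (min y b)

theorem cl_meas (b : ℝ) : Measurable (cl b) :=
  measurable_const.max (measurable_id.min measurable_const)

theorem cl_err {b t y s : ℝ} (hb : 0 ≤ b) (hs : 0 ≤ s) (ht : |t| ≤ b + s) :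
    |t - cl b y| ≤ |t - y| + s := by
  obtain ⟨h1, h2⟩ := abs_le.1 ht
  unfold cl
  rcases le_total y b with h | h
  · rw [min_eq_left h]
    rcases le_total (-b) y with h' | h'
    · rw [max_eq_right h']
      linarith
    · rw [max_eq_left h', abs_le]
      have h3 := le_abs_self (t - y)
      have h4 := abs_nonneg (t - y)
      constructor <;> linarith
  · rw [min_eq_right h, max_eq_right (by linarith), abs_le]
    have h3 := neg_abs_le (t - y)
    have h4 := abs_nonneg (t - y)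
    constructor <;> linarith

/-- the approximating functions -/
def ZT (b : ℝ) (Y : MX) : MX :=
  ⟨fun u => Real.tan (cl b (Y.1 u)), by
    have h1 : Measurable fun u => cl b (Y.1 u) := (cl_meas b).comp Y.2
    have h2 : (fun u => Real.tan (cl b (Y.1 u))) =
        fun u => Real.sin (cl b (Y.1 u)) / Real.cos (cl b (Y.1 u)) := by
      funext u
      exact Real.tan_eq_sin_div_cos _
    rw [h2]
    exact (Real.measurable_sin.comp h1).div (Real.measurable_cos.comp h1)⟩

/-- the angle of a quantile function -/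
def TH (X : MX) : MX :=
  ⟨fun u => if u ≤ 0 then -(Real.pi / 2) else if 1 ≤ u then Real.pi / 2 else Real.arctan (X.1 u),
    Measurable.ite measurableSet_Iic measurable_const
      (Measurable.ite measurableSet_Ici measurable_const
        (Real.continuous_arctan.measurable.comp X.2))⟩

theorem TH_abs (X : MX) (u : ℝ) : |(TH X).1 u| ≤ Real.pi / 2 := by
  have hp := Real.pi_pos
  show |if u ≤ 0 then -(Real.pi / 2) else if 1 ≤ u then Real.pi / 2 else Real.arctan (X.1 u)| ≤ _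
  split_ifs
  · rw [abs_neg, abs_of_pos (by positivity)]
  · rw [abs_of_pos (by positivity)]
  · rw [abs_le]
    exact ⟨(Real.neg_pi_div_two_lt_arctan _).le, (Real.arctan_lt_pi_div_two _).le⟩

theorem TH_mono (X : MX) (hX : X ∈ Qf) : Monotone (TH X).1 := by
  intro u v huv
  have hu := abs_le.1 (TH_abs X u)
  have hv := abs_le.1 (TH_abs X v)
  by_cases h1 : u ≤ 0
  · have : (TH X).1 u = -(Real.pi / 2) := if_pos h1
    rw [this]
    exact hv.1
  · by_cases h2 : 1 ≤ v
    · have : (TH X).1 v = Real.pi / 2 := by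
        show (if v ≤ 0 then -(Real.pi / 2) else if 1 ≤ v then Real.pi / 2
          else Real.arctan (X.1 v)) = _
        rw [if_neg (by linarith), if_pos h2]
      rw [this]
      exact hu.2
    · have e1 : (TH X).1 u = Real.arctan (X.1 u) := by
        show (if u ≤ 0 then -(Real.pi / 2) else if 1 ≤ u then Real.pi / 2
          else Real.arctan (X.1 u)) = _
        rw [if_neg h1, if_neg (by push Not at h2; linarith)]
      have e2 : (TH X).1 v = Real.arctan (X.1 v) := by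
        show (if v ≤ 0 then -(Real.pi / 2) else if 1 ≤ v then Real.pi / 2
          else Real.arctan (X.1 v)) = _
        rw [if_neg (by push Not at h1; linarith), if_neg h2]
      rw [e1, e2]
      push Not at h1 h2
      exact Real.arctan_mono (hX ⟨h1, by linarith⟩ ⟨by linarith, h2⟩ huv)

theorem main : S_NETX2 := by
  intro τ hτ
  have hpi := Real.pi_gt_three
  have hpi4 := Real.pi_le_four
  obtain ⟨s, hs⟩ : ∃ s : ℝ, s = min (τ / 4) 1 := ⟨_, rfl⟩
  have hs0 : 0 < s := by rw [hs]; exact lt_min (by linarith) one_pos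
  have hs1 : s ≤ 1 := by rw [hs]; exact min_le_right _ _
  have hs2 : s ≤ τ / 4 := by rw [hs]; exact min_le_left _ _
  obtain ⟨b, hb⟩ : ∃ b : ℝ, b = Real.pi / 2 - s := ⟨_, rfl⟩
  have hb0 : 0 ≤ b := by rw [hb]; linarith
  obtain ⟨N, hN⟩ := exists_nat_gt (80 * 2 ^ 2 / (τ ^ 2 / 2))
  have hN0 : (0 : ℝ) < N := lt_of_le_of_lt (by positivity) hN
  have hN1 : 1 ≤ N := by
    have : 0 < N := by exact_mod_cast hN0
    omega
  refine ⟨Set.range (fun g => ZT b (YY 2 N g)), Set.finite_range _, ?_⟩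
  intro X hX
  have hMo : TH X ∈ Mo 2 := by
    refine ⟨TH_mono X hX, fun u => (TH_abs X u).trans (by linarith)⟩
  obtain ⟨g, hg⟩ := key' (by norm_num : (0 : ℝ) < 2) hN1 hMo
  refine ⟨_, ⟨g, rfl⟩, ?_⟩
  have h1 := hg (fun u => ‖cay (X.1 u) - cay ((ZT b (YY 2 N g)).1 u)‖ ^ 2) (8 * s ^ 2)
    (fun u => by positivity) (by
      intro u hu
      have e1 : (TH X).1 u = Real.arctan (X.1 u) := by
        show (if u ≤ 0 then -(Real.pi / 2) else if 1 ≤ u then Real.pi / 2
          else Real.arctan (X.1 u)) = _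
        rw [if_neg (by have := hu.1; linarith), if_neg (by have := hu.2; linarith)]
      have e2 : Real.arctan ((ZT b (YY 2 N g)).1 u) = cl b ((YY 2 N g).1 u) := by
        show Real.arctan (Real.tan (cl b ((YY 2 N g).1 u))) = _
        apply Real.arctan_tan
        · have : -b ≤ cl b ((YY 2 N g).1 u) := le_max_left _ _
          linarith
        · have : cl b ((YY 2 N g).1 u) ≤ b :=
            max_le (by linarith) (min_le_right _ _)
          linarith
      have h2 := cay_arctan (X.1 u) ((ZT b (YY 2 N g)).1 u)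
      rw [e2, ← e1] at h2
      have h3 := cl_err (b := b) (t := (TH X).1 u) (y := (YY 2 N g).1 u) (s := s) hb0 hs0.le (by
        have := TH_abs X u
        rw [hb]; linarith)
      have h4 : ‖cay (X.1 u) - cay ((ZT b (YY 2 N g)).1 u)‖ ^ 2 ≤
          (2 * (|(TH X).1 u - (YY 2 N g).1 u| + s)) ^ 2 :=
        pow_le_pow_left₀ (norm_nonneg _) (by linarith) 2
      refine h4.trans ?_
      nlinarith [sq_nonneg (|(TH X).1 u - (YY 2 N g).1 u| - s)])
  unfold cd
  refine h1.trans ?_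
  rw [div_lt_iff₀ (by positivity)] at hN
  have h5 : 80 * (2 : ℝ) ^ 2 / N ≤ τ ^ 2 / 2 := by
    rw [div_le_iff₀ hN0]
    linarith
  have h6 : 8 * s ^ 2 ≤ τ ^ 2 / 2 := by
    have : s ^ 2 ≤ (τ / 4) ^ 2 := pow_le_pow_left₀ hs0.le hs2 2
    nlinarith
  linarith

end

end Pool.Agent.W125.WA.Netx2
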