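import Pool.Agent.W792.WA.Stm5

/-!
Project WA, task TAN: level functions with law close to the Cauchy law.
-/

set_option autoImplicit false

open MeasureTheory Filter Pool.Agent.W792.WA
open scoped Topology

noncomputable section

namespace Pool.Agent.W125.WA.Tan

/-- Cauchy law as the law of a tangent. -/
theorem cauchy_int (f : ℝ → ℂ) :
    ∫ a, f a ∂(ProbabilityTheory.cauchyMeasure 0 1)
      = (Real.pi : ℂ)⁻¹ * ∫ u in Set.Ioo (-(Real.pi / 2)) (Real.pi / 2), f (Real.tan u) := by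
  have h1 : ProbabilityTheory.cauchyMeasure 0 1 =
      volume.withDensity (ProbabilityTheory.cauchyPDF 0 1) := by
    simp [ProbabilityTheory.cauchyMeasure]
  rw [h1]
  have h2 : ∫ a, f a ∂(volume.withDensity (ProbabilityTheory.cauchyPDF 0 1))
      = ∫ a, (Real.pi⁻¹ * (1 + a ^ 2)⁻¹) • f a := by
    rw [integral_withDensity_eq_integral_toReal_smul]
    · refine integral_congr_ae (Eventually.of_forall fun a => ?_)
      simp only [ProbabilityTheory.cauchyPDF]
      rw [ENNReal.toReal_ofReal (ProbabilityTheory.cauchyPDF_pos 0 one_ne_zero a).le]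
      simp only [ProbabilityTheory.cauchyPDFReal]
      congr 1
      simp [add_comm]
    · exact ProbabilityTheory.measurable_cauchyPDF 0 1
    · exact Eventually.of_forall fun a => by simp [ProbabilityTheory.cauchyPDF]
  rw [h2]
  have h3 : Real.tan '' Set.Ioo (-(Real.pi / 2)) (Real.pi / 2) = Set.univ :=
    Real.image_tan_Ioo
  have h4 := integral_image_eq_integral_abs_deriv_smul (s := Set.Ioo (-(Real.pi / 2)) (Real.pi / 2))
    (f := Real.tan) (f' := fun u => 1 / Real.cos u ^ 2) measurableSet_Ioo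
    (fun u hu => (Real.hasDerivAt_tan (Real.cos_pos_of_mem_Ioo hu).ne').hasDerivWithinAt)
    Real.injOn_tan (fun a => (Real.pi⁻¹ * (1 + a ^ 2)⁻¹) • f a)
  rw [h3, setIntegral_univ] at h4
  rw [h4, ← integral_const_mul]
  refine setIntegral_congr_fun measurableSet_Ioo fun u hu => ?_
  have hc : 0 < Real.cos u := Real.cos_pos_of_mem_Ioo hu
  have h5 : 1 + Real.tan u ^ 2 = 1 / Real.cos u ^ 2 := by
    rw [Real.tan_eq_sin_div_cos]
    field_simp
    rw [← Real.cos_sq_add_sin_sq u]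
  rw [h5, smul_smul, abs_of_pos (by positivity)]
  have h6 : 1 / Real.cos u ^ 2 * (Real.pi⁻¹ * (1 / Real.cos u ^ 2)⁻¹) = Real.pi⁻¹ := by
    field_simp
  rw [h6]
  simp


theorem nrm_left {φ : ℝ} (h0 : 0 ≤ φ) (h1 : φ ≤ 1 / 2) : ‖(φ : UnitAddCircle)‖ = φ := by
  have h := (AddCircle.norm_coe_eq_abs_iff (p := (1 : ℝ)) (x := φ) one_ne_zero).2 (by
    rw [abs_of_nonneg h0, abs_one]; exact h1)
  rw [abs_of_nonneg h0] at h
  exact h

theorem nrm_right {φ : ℝ} (h0 : 1 / 2 ≤ φ) (h1 : φ ≤ 1) : ‖(φ : UnitAddCircle)‖ = 1 - φ := by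
  have h := nrm_left (φ := 1 - φ) (by linarith) (by linarith)
  have h2 : ((1 - φ : ℝ) : UnitAddCircle) = -(φ : UnitAddCircle) := by
    rw [AddCircle.coe_sub]
    have h3 : ((1 : ℝ) : UnitAddCircle) = 0 := AddCircle.coe_period 1
    rw [h3, zero_sub]
  rw [h2, norm_neg] at h
  exact h

theorem nrm_le (t : UnitAddCircle) : ‖t‖ ≤ 1 / 2 := by
  have h := AddCircle.norm_le_half_period (1 : ℝ) (x := t) one_ne_zero
  rwa [abs_one] at h

theorem arg_mem {θ : ℝ} (h0 : 0 < θ) (t : UnitAddCircle) :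
    θ * (4 * ‖t‖ - 1) ∈ Set.Icc (-θ) θ := by
  have h1 := nrm_le t
  have h2 := norm_nonneg t
  constructor <;> nlinarith

/-- The level function. -/
def lvl (θ : ℝ) (h0 : 0 < θ) (h1 : θ < Real.pi / 2) : C(UnitAddCircle, ℝ) where
  toFun t := Real.tan (θ * (4 * ‖t‖ - 1)) / Real.tan θ
  continuous_toFun := by
    refine Continuous.div_const ?_ _
    refine Real.continuousOn_tan_Ioo.comp_continuous (by fun_prop) fun t => ?_
    have h := arg_mem h0 t
    exact ⟨by linarith [h.1], by linarith [h.2]⟩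

theorem tan_abs_le {θ u : ℝ} (h1 : θ < Real.pi / 2) (hu : u ∈ Set.Icc (-θ) θ) :
    |Real.tan u| ≤ Real.tan θ := by
  have hθ : θ ∈ Set.Ioo (-(Real.pi / 2)) (Real.pi / 2) :=
    ⟨by linarith [hu.1, hu.2, Real.pi_pos], h1⟩
  have hu' : u ∈ Set.Ioo (-(Real.pi / 2)) (Real.pi / 2) :=
    ⟨by linarith [hu.1], by linarith [hu.2]⟩
  have hn : -u ∈ Set.Ioo (-(Real.pi / 2)) (Real.pi / 2) :=
    ⟨by linarith [hu'.2], by linarith [hu'.1]⟩
  rw [abs_le]
  constructor
  · have := Real.strictMonoOn_tan.monotoneOn hn hθ (by linarith [hu.1])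
    rw [Real.tan_neg] at this
    linarith
  · exact Real.strictMonoOn_tan.monotoneOn hu' hθ hu.2

theorem atom_zero {θ : ℝ} (h0 : 0 < θ) (h1 : θ < Real.pi / 2) (a : ℝ) :
    volume {φ : ℝ | φ ∈ Set.Ioc (0 : ℝ) 1 ∧ lvl θ h0 h1 (φ : UnitAddCircle) = a} = 0 := by
  have hT : 0 < Real.tan θ := Real.tan_pos_of_pos_of_lt_pi_div_two h0 h1
  refine measure_mono_null (t := {(Real.arctan (a * Real.tan θ) / θ + 1) / 4,
    1 - (Real.arctan (a * Real.tan θ) / θ + 1) / 4}) ?_ ?_
  · rintro φ ⟨hφ, h⟩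
    have h2 : Real.tan (θ * (4 * ‖(φ : UnitAddCircle)‖ - 1)) / Real.tan θ = a := h
    rw [div_eq_iff hT.ne'] at h2
    have hm := arg_mem h0 (φ : UnitAddCircle)
    have h3 : θ * (4 * ‖(φ : UnitAddCircle)‖ - 1) = Real.arctan (a * Real.tan θ) := by
      rw [← h2, Real.arctan_tan (by linarith [hm.1]) (by linarith [hm.2])]
    have h4 : ‖(φ : UnitAddCircle)‖ = (Real.arctan (a * Real.tan θ) / θ + 1) / 4 := by
      rw [← h3]; field_simp; ring
    rcases le_total φ (1 / 2) with h5 | h5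
    · rw [nrm_left hφ.1.le h5] at h4
      exact Or.inl h4
    · rw [nrm_right h5 hφ.2] at h4
      right
      show φ = _
      linarith
  · exact (Set.toFinite _).measure_zero _

theorem int_lvl {E : Type*} [NormedAddCommGroup E] [NormedSpace ℝ E] {θ : ℝ} (h0 : 0 < θ)
    (g : ℝ → E) (F : ℝ) (hg : StronglyMeasurable g) (hb : ∀ u ∈ Set.Icc (-θ) θ, ‖g u‖ ≤ F) :
    ∫ φ in Set.Ioc (0 : ℝ) 1, g (θ * (4 * ‖(φ : UnitAddCircle)‖ - 1))
      = (2 * θ)⁻¹ • ∫ u in (-θ)..θ, g u := by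
  rw [← intervalIntegral.integral_of_le zero_le_one]
  have hI : ∀ a b : ℝ, IntervalIntegrable
      (fun φ : ℝ => g (θ * (4 * ‖(φ : UnitAddCircle)‖ - 1))) volume a b := by
    intro a b
    rw [intervalIntegrable_iff]
    refine Measure.integrableOn_of_bounded (M := F) ?_ ?_ ?_
    · rw [Set.uIoc]; exact measure_Ioc_lt_top.ne
    · refine hg.comp_measurable ?_ |>.aestronglyMeasurable
      have : Continuous fun φ : ℝ => θ * (4 * ‖(φ : UnitAddCircle)‖ - 1) := by
        have h : Continuous fun φ : ℝ => (φ : UnitAddCircle) := AddCircle.continuous_mk' 1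
        fun_prop
      exact this.measurable
    · exact Eventually.of_forall fun φ => hb _ (arg_mem h0 _)
  rw [← intervalIntegral.integral_add_adjacent_intervals (hI 0 (1 / 2)) (hI (1 / 2) 1)]
  have e1 : ∫ φ in (0 : ℝ)..(1 / 2), g (θ * (4 * ‖(φ : UnitAddCircle)‖ - 1))
      = ∫ φ in (0 : ℝ)..(1 / 2), g (4 * θ * φ - θ) := by
    refine intervalIntegral.integral_congr fun φ hφ => ?_
    rw [Set.uIcc_of_le (by norm_num)] at hφ
    rw [nrm_left hφ.1 hφ.2]
    congr 1; ring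
  have e2 : ∫ φ in (1 / 2 : ℝ)..1, g (θ * (4 * ‖(φ : UnitAddCircle)‖ - 1))
      = ∫ φ in (1 / 2 : ℝ)..1, g (3 * θ - 4 * θ * φ) := by
    refine intervalIntegral.integral_congr fun φ hφ => ?_
    rw [Set.uIcc_of_le (by norm_num)] at hφ
    rw [nrm_right hφ.1 hφ.2]
    congr 1; ring
  have h4 : (4 * θ) ≠ 0 := by positivity
  rw [e1, e2, intervalIntegral.integral_comp_mul_sub _ h4,
    intervalIntegral.integral_comp_sub_mul _ h4]
  have e3 : 4 * θ * 0 - θ = -θ := by ring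
  have e4 : 4 * θ * (1 / 2) - θ = θ := by ring
  have e5 : 3 * θ - 4 * θ * 1 = -θ := by ring
  have e6 : 3 * θ - 4 * θ * (1 / 2) = θ := by ring
  rw [e3, e4, e5, e6, ← add_smul]
  congr 1
  field_simp
  norm_num



theorem measurable_tan' : Measurable Real.tan := by
  have h : Real.tan = fun u => Real.sin u / Real.cos u := funext Real.tan_eq_sin_div_cos
  rw [h]
  exact Real.measurable_sin.div Real.measurable_cos

/-- Comparison of the two laws. -/
theorem compare {γ θ : ℝ} (h0 : 0 < θ) (h1 : θ < Real.pi / 2) (f : ℝ → ℂ) (F : ℝ)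
    (hf : Measurable f) (hF : ∀ a, ‖f a‖ ≤ F) :
    ‖∫ a, f a ∂(lev (lvl θ h0 h1) (γ * Real.tan θ))
      - ∫ a, f (γ * a) ∂(ProbabilityTheory.cauchyMeasure 0 1)‖ ≤ 2 * (1 - 2 * θ / Real.pi) * F := by
  have hT : 0 < Real.tan θ := Real.tan_pos_of_pos_of_lt_pi_div_two h0 h1
  have hpi := Real.pi_pos
  have hF0 : 0 ≤ F := (norm_nonneg _).trans (hF 0)
  set g : ℝ → ℂ := fun u => f (γ * Real.tan u) with hg
  have hgm : Measurable g := hf.comp (measurable_tan'.const_mul γ)
  have hgb : ∀ u, ‖g u‖ ≤ F := fun u => hF _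
  have e1 : ∫ a, f a ∂(lev (lvl θ h0 h1) (γ * Real.tan θ))
      = (2 * θ)⁻¹ • ∫ u in Set.Ioc (-θ) θ, g u := by
    unfold lev
    rw [integral_map]
    · rw [← intervalIntegral.integral_of_le (by linarith : -θ ≤ θ),
        ← int_lvl h0 g F hgm.stronglyMeasurable (fun u _ => hgb u)]
      refine setIntegral_congr_fun measurableSet_Ioc fun φ _ => ?_
      rw [hg]
      change f (γ * Real.tan θ * (Real.tan (θ * (4 * ‖(φ : UnitAddCircle)‖ - 1)) / Real.tan θ)) = _
      congr 1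
      field_simp
    · have h : Continuous fun φ : ℝ => (φ : UnitAddCircle) := AddCircle.continuous_mk' 1
      exact (((lvl θ h0 h1).continuous.comp h).const_mul _).measurable.aemeasurable
    · exact hf.aestronglyMeasurable
  have e2 : ∫ a, f (γ * a) ∂(ProbabilityTheory.cauchyMeasure 0 1)
      = (Real.pi)⁻¹ • ∫ u in Set.Ioo (-(Real.pi / 2)) (Real.pi / 2), g u := by
    rw [cauchy_int (fun a => f (γ * a)), Complex.real_smul]
    push_cast
    rfl
  have hsub : Set.Ioc (-θ) θ ⊆ Set.Ioo (-(Real.pi / 2)) (Real.pi / 2) := fun u hu =>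
    ⟨by linarith [hu.1], by linarith [hu.2]⟩
  have hint : ∀ s : Set ℝ, volume s ≠ ⊤ → IntegrableOn g s := fun s hs =>
    Measure.integrableOn_of_bounded hs hgm.aestronglyMeasurable (Eventually.of_forall hgb)
  have hfin : volume (Set.Ioo (-(Real.pi / 2)) (Real.pi / 2)) ≠ ⊤ := measure_Ioo_lt_top.ne
  have hfin2 : volume (Set.Ioc (-θ) θ) ≠ ⊤ := measure_Ioc_lt_top.ne
  have e3 : ∫ u in Set.Ioo (-(Real.pi / 2)) (Real.pi / 2), g u
      = (∫ u in Set.Ioc (-θ) θ, g u)
        + ∫ u in Set.Ioo (-(Real.pi / 2)) (Real.pi / 2) \ Set.Ioc (-θ) θ, g u := by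
    rw [← setIntegral_union Set.disjoint_sdiff_right (measurableSet_Ioo.diff measurableSet_Ioc)
      (hint _ hfin2) (hint _ ((measure_mono Set.sdiff_subset).trans_lt hfin.lt_top).ne), Set.union_sdiff_cancel hsub]
  have hX : ‖∫ u in Set.Ioc (-θ) θ, g u‖ ≤ F * (2 * θ) := by
    refine (norm_setIntegral_le_of_norm_le_const hfin2.lt_top fun u _ => hgb u).trans ?_
    rw [Real.volume_real_Ioc_of_le (by linarith)]
    exact le_of_eq (by ring)
  have hY : ‖∫ u in Set.Ioo (-(Real.pi / 2)) (Real.pi / 2) \ Set.Ioc (-θ) θ, g u‖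
      ≤ F * (Real.pi - 2 * θ) := by
    refine (norm_setIntegral_le_of_norm_le_const
      ((measure_mono Set.sdiff_subset).trans_lt hfin.lt_top) fun u _ => hgb u).trans ?_
    rw [measureReal_sdiff hsub measurableSet_Ioc hfin, Real.volume_real_Ioc_of_le (by linarith),
      Real.volume_real_Ioo_of_le (by linarith)]
    exact le_of_eq (by ring)
  rw [e1, e2, e3]
  generalize (∫ u in Set.Ioc (-θ) θ, g u) = X at hX
  generalize (∫ u in Set.Ioo (-(Real.pi / 2)) (Real.pi / 2) \ Set.Ioc (-θ) θ, g u) = Y at hY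
  have e4 : (2 * θ)⁻¹ • X - Real.pi⁻¹ • (X + Y) = ((2 * θ)⁻¹ - Real.pi⁻¹) • X - Real.pi⁻¹ • Y := by
    rw [smul_add, sub_smul]; abel
  have hab : 0 ≤ (2 * θ)⁻¹ - Real.pi⁻¹ := by
    rw [sub_nonneg]
    exact inv_anti₀ (by positivity) (by linarith)
  rw [e4]
  refine (norm_sub_le _ _).trans ?_
  rw [norm_smul, norm_smul, Real.norm_of_nonneg hab, Real.norm_of_nonneg (by positivity)]
  have h5 := mul_le_mul_of_nonneg_left hX hab
  have h6 := mul_le_mul_of_nonneg_left hY (by positivity : 0 ≤ Real.pi⁻¹)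
  have h7 : ((2 * θ)⁻¹ - Real.pi⁻¹) * (F * (2 * θ)) + Real.pi⁻¹ * (F * (Real.pi - 2 * θ))
      = 2 * (1 - 2 * θ / Real.pi) * F := by
    field_simp
    ring
  linarith

/-- The moments. -/
theorem moment {γ θ p : ℝ} (hγ : 0 < γ) (h0 : 0 < θ) (h1 : θ < Real.pi / 2) (hp : 1 < p) :
    ∫ φ in Set.Ioc (0 : ℝ) 1, |γ * Real.tan θ * lvl θ h0 h1 (φ : UnitAddCircle)| ^ p
      ≤ θ⁻¹ * (γ ^ p * ((Real.pi / 2 - θ) ^ (1 - p) / (p - 1))) := by
  have hT : 0 < Real.tan θ := Real.tan_pos_of_pos_of_lt_pi_div_two h0 h1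
  have hpi := Real.pi_pos
  set h : ℝ → ℝ := fun u => |γ * Real.tan u| ^ p with hh
  have hm : Measurable h := by
    have := (measurable_tan'.const_mul γ)
    have h2 : Measurable fun u => |γ * Real.tan u| := this.abs
    exact h2.pow_const p
  have hb : ∀ u ∈ Set.Icc (-θ) θ, ‖h u‖ ≤ (γ * Real.tan θ) ^ p := by
    intro u hu
    have h2 := tan_abs_le h1 hu
    rw [Real.norm_of_nonneg (by positivity)]
    refine Real.rpow_le_rpow (abs_nonneg _) ?_ (by linarith)
    rw [abs_mul, abs_of_pos hγ]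
    exact mul_le_mul_of_nonneg_left h2 hγ.le
  have e1 : ∫ φ in Set.Ioc (0 : ℝ) 1, |γ * Real.tan θ * lvl θ h0 h1 (φ : UnitAddCircle)| ^ p
      = (2 * θ)⁻¹ • ∫ u in (-θ)..θ, h u := by
    rw [← int_lvl h0 h _ hm.stronglyMeasurable hb]
    refine setIntegral_congr_fun measurableSet_Ioc fun φ _ => ?_
    rw [hh]
    change |γ * Real.tan θ * (Real.tan (θ * (4 * ‖(φ : UnitAddCircle)‖ - 1)) / Real.tan θ)| ^ p = _
    congr 2
    field_simp
  have hsub : ∀ a b : ℝ, -θ ≤ a → b ≤ θ → a ≤ b → IntervalIntegrable h volume a b := by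
    intro a b ha hb' hab
    rw [intervalIntegrable_iff, Set.uIoc_of_le hab]
    refine Measure.integrableOn_of_bounded (M := (γ * Real.tan θ) ^ p) measure_Ioc_lt_top.ne
      hm.aestronglyMeasurable ?_
    filter_upwards [ae_restrict_mem measurableSet_Ioc] with u hu
    exact hb u ⟨by linarith [hu.1], by linarith [hu.2]⟩
  have e2 : ∫ u in (-θ)..θ, h u = 2 * ∫ u in (0 : ℝ)..θ, h u := by
    rw [← intervalIntegral.integral_add_adjacent_intervals (hsub (-θ) 0 le_rfl h0.le (by linarith))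
      (hsub 0 θ (by linarith) le_rfl h0.le)]
    have e3 : ∫ u in (-θ)..0, h u = ∫ u in (0 : ℝ)..θ, h u := by
      have h3 := intervalIntegral.integral_comp_neg (a := 0) (b := θ) h
      rw [neg_zero] at h3
      rw [← h3]
      refine intervalIntegral.integral_congr fun u _ => ?_
      rw [hh]
      show |γ * Real.tan (-u)| ^ p = |γ * Real.tan u| ^ p
      rw [Real.tan_neg, mul_neg, abs_neg]
    rw [e3]; ring
  have hle : ∫ u in (0 : ℝ)..θ, h u ≤ ∫ u in (0 : ℝ)..θ, γ ^ p * (Real.pi / 2 - u) ^ (-p) := by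
    refine intervalIntegral.integral_mono_on h0.le (hsub 0 θ (by linarith) le_rfl h0.le) ?_ ?_
    · refine ContinuousOn.intervalIntegrable ?_
      rw [Set.uIcc_of_le h0.le]
      refine ContinuousOn.mul continuousOn_const ?_
      refine ContinuousOn.rpow_const (by fun_prop) fun u hu => Or.inl ?_
      have := hu.2
      linarith
    · intro u hu
      rw [hh]
      have hx : 0 < Real.pi / 2 - u := by linarith [hu.2]
      have htan : 0 ≤ Real.tan u := Real.tan_nonneg_of_nonneg_of_le_pi_div_two hu.1 (by linarith)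
      have h3 : Real.tan u ≤ (Real.pi / 2 - u)⁻¹ := by
        rcases hu.1.eq_or_lt with h4 | h4
        · rw [← h4, Real.tan_zero]; simp; positivity
        · have h5 := Real.lt_tan hx (by linarith)
          rw [Real.tan_pi_div_two_sub] at h5
          have h6 : 0 < Real.tan u := Real.tan_pos_of_pos_of_lt_pi_div_two h4 (by linarith)
          rw [le_inv_comm₀ h6 hx]
          exact h5.le
      show |γ * Real.tan u| ^ p ≤ _
      rw [abs_mul, abs_of_pos hγ, abs_of_nonneg htan, Real.mul_rpow hγ.le htan,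
        Real.rpow_neg hx.le, ← Real.inv_rpow hx.le]
      exact mul_le_mul_of_nonneg_left (Real.rpow_le_rpow htan h3 (by linarith)) (by positivity)
  have e4 : ∫ u in (0 : ℝ)..θ, γ ^ p * (Real.pi / 2 - u) ^ (-p)
      = γ ^ p * (((Real.pi / 2) ^ (1 - p) - (Real.pi / 2 - θ) ^ (1 - p)) / (1 - p)) := by
    rw [intervalIntegral.integral_const_mul]
    congr 1
    rw [intervalIntegral.integral_comp_sub_left (fun x => x ^ (-p)) (Real.pi / 2), sub_zero,
      integral_rpow]
    · have : -p + 1 = 1 - p := by ring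
      rw [this]
    · right
      refine ⟨by linarith, fun hmem => ?_⟩
      rw [Set.uIcc_of_le (by linarith)] at hmem
      linarith [hmem.1]
  have hfin : γ ^ p * (((Real.pi / 2) ^ (1 - p) - (Real.pi / 2 - θ) ^ (1 - p)) / (1 - p))
      ≤ γ ^ p * ((Real.pi / 2 - θ) ^ (1 - p) / (p - 1)) := by
    refine mul_le_mul_of_nonneg_left ?_ (by positivity)
    have h3 : 0 < (Real.pi / 2) ^ (1 - p) := Real.rpow_pos_of_pos (by positivity) _
    have h4 : ((Real.pi / 2) ^ (1 - p) - (Real.pi / 2 - θ) ^ (1 - p)) / (1 - p)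
        = ((Real.pi / 2 - θ) ^ (1 - p) - (Real.pi / 2) ^ (1 - p)) / (p - 1) := by
      rw [← neg_sub p 1, div_neg, ← neg_div, neg_sub]
    rw [h4]
    exact div_le_div_of_nonneg_right (by linarith) (by linarith)
  rw [e1, e2, smul_eq_mul]
  have h9 : ∫ u in (0 : ℝ)..θ, h u ≤ γ ^ p * ((Real.pi / 2 - θ) ^ (1 - p) / (p - 1)) :=
    hle.trans (e4.le.trans hfin)
  have h10 : (2 * θ)⁻¹ * (2 * ∫ u in (0 : ℝ)..θ, h u) = θ⁻¹ * ∫ u in (0 : ℝ)..θ, h u := by
    field_simp
  rw [h10]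
  exact mul_le_mul_of_nonneg_left h9 (by positivity)

theorem main : Pool.Agent.W792.WA.S_TAN := by
  intro γ τ hγ hτ hτ2
  have hpi := Real.pi_pos
  have h0 : 0 < (1 - τ) * (Real.pi / 2) := by
    have : 0 < 1 - τ := by linarith
    positivity
  have h1 : (1 - τ) * (Real.pi / 2) < Real.pi / 2 := by nlinarith
  have hT : 0 < Real.tan ((1 - τ) * (Real.pi / 2)) :=
    Real.tan_pos_of_pos_of_lt_pi_div_two h0 h1
  refine ⟨lvl _ h0 h1, γ * Real.tan ((1 - τ) * (Real.pi / 2)), ⟨fun t => ?_, atom_zero h0 h1⟩,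
    by positivity, fun f F hf hF => ?_, fun p hp hp2 => ?_⟩
  · change |Real.tan (_ * (4 * ‖t‖ - 1)) / Real.tan _| ≤ 1
    rw [abs_div, abs_of_pos hT, div_le_one hT]
    exact tan_abs_le h1 (arg_mem h0 t)
  · refine (compare h0 h1 f F hf hF).trans (le_of_eq ?_)
    have : 1 - 2 * ((1 - τ) * (Real.pi / 2)) / Real.pi = τ := by
      field_simp
      ring
    rw [this]
  · refine (moment hγ h0 h1 hp).trans ?_
    have e1 : Real.pi / 2 - (1 - τ) * (Real.pi / 2) = τ * (Real.pi / 2) := by ring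
    rw [e1, Real.mul_rpow hτ.le (by positivity)]
    have h2 : (Real.pi / 2) ^ (1 - p) ≤ 1 :=
      Real.rpow_le_one_of_one_le_of_nonpos (by linarith [Real.pi_gt_three]) (by linarith)
    have h3 : ((1 - τ) * (Real.pi / 2))⁻¹ ≤ 2 := by
      rw [inv_le_comm₀ h0 (by norm_num)]
      nlinarith [Real.pi_gt_three]
    have h4 : 0 < τ ^ (1 - p) := Real.rpow_pos_of_pos hτ _
    have h5 : 0 < γ ^ p := Real.rpow_pos_of_pos hγ _
    have h6 : 0 < p - 1 := by linarith
    have h7 : γ ^ p * (τ ^ (1 - p) * (Real.pi / 2) ^ (1 - p) / (p - 1))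
        ≤ γ ^ p * (τ ^ (1 - p) / (p - 1)) := by
      refine mul_le_mul_of_nonneg_left ?_ h5.le
      refine div_le_div_of_nonneg_right ?_ h6.le
      exact mul_le_of_le_one_right h4.le h2
    calc ((1 - τ) * (Real.pi / 2))⁻¹ * (γ ^ p * (τ ^ (1 - p) * (Real.pi / 2) ^ (1 - p) / (p - 1)))
        ≤ 2 * (γ ^ p * (τ ^ (1 - p) / (p - 1))) := by
          refine mul_le_mul h3 h7 ?_ (by norm_num)
          positivity
      _ = 2 * γ ^ p * τ ^ (1 - p) / (p - 1) := by ring

end Pool.Agent.W125.WA.Tan
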